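import Pool.Agent.H43.SupJ

namespace Pool.Agent.Results.MP_e34f63_pr.Irreducible

open Pool.Agent.H43.SupJ

theorem result :
    ∀ (K : ℕ) (Γ : Fin K → ℕ) (ζ ξ : Fin K → PMF (List (Fin K))), (∀ j, ζ j [] ≠ 0) → Irred ζ →
      Cond Γ ζ ξ → Supp ζ ξ :=
  joint.2

end Pool.Agent.Results.MP_e34f63_pr.Irreducible
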