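import Pool.Agent.H43.SupJ

namespace Pool.Agent.Results.MP_e34f63_pr.Reducible

open Pool.Agent.H43.SupJ

theorem result :
    ∃ ζ ξ : Fin 2 → PMF (List (Fin 2)), (∀ j, ζ j [] ≠ 0) ∧ Cond (fun _ => 1) ζ ξ ∧ ¬Supp ζ ξ :=
  joint.1

end Pool.Agent.Results.MP_e34f63_pr.Reducible
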